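import Pool.Agent.Q98.SPN.Star

set_option autoImplicit false

open scoped Matrix.Norms.L2Operator Matrix
open Finset Pool.Agent.Q98.SPN

namespace Pool.Agent.Q87.SPN

/-- Injective `*`-homomorphisms between C*-algebras are isometric, for `*`-subalgebras of matrices
and products of matrix algebras. -/
theorem ISO_ok : S_ISO := by
  intro m _ _ 𝒜 k d Ψ hstar x
  have hcl : IsClosed (𝒜 : Set (Matrix m m ℂ)) :=
    Submodule.closed_of_finiteDimensional (Subalgebra.toSubmodule 𝒜.toSubalgebra)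
  let _ : CStarAlgebra 𝒜 := StarSubalgebra.cstarAlgebra 𝒜 (h_closed := hcl)
  let φ : 𝒜 →⋆ₐ[ℂ] ((i : Fin k) → Matrix (Fin (d i)) (Fin (d i)) ℂ) :=
    { (Ψ : 𝒜 →ₐ[ℂ] ((i : Fin k) → Matrix (Fin (d i)) (Fin (d i)) ℂ)) with
      map_star' := fun y => by
        funext i
        exact hstar y i }
  have hφ : ∀ y, φ y = Ψ y := fun _ => rfl
  have hinj : Function.Injective φ := Ψ.injective
  have h1 : ‖φ x‖ = ‖x‖ := NonUnitalStarAlgHom.norm_map φ hinj x
  have h2 : ‖x‖ = ‖(x : Matrix m m ℂ)‖ := rfl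
  rw [hφ, h2] at h1
  refine ⟨fun i => ?_, fun c hc h => ?_⟩
  · rw [← h1]
    exact norm_le_pi_norm (Ψ x) i
  · rw [← h1]
    exact (pi_norm_le_iff_of_nonneg hc).2 h

end Pool.Agent.Q87.SPN
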